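import Pool.Agent.Q183.CF.Third

/-!
# Averages along `n, 2n, ⌊c n⌋` for almost every `c`

In the cubic averages of the problem the third time `3n` is replaced by `⌊c n⌋`, or `⌊c p(n)⌋` where `p(n)` is a power
`n^θ` with real `θ > 0` or a real polynomial of positive degree with positive leading coefficient.

Let `T` and `S` be arbitrary measure preserving maps of a probability space (for example `S = T`), `f_j`, `j < m`, and
`h` in `L^∞`. For almost every `c > 0` and almost every `x` the averages of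
`f_1 (T^n x) ⋯ f_m (T^{mn} x) h (S^⌊c p(n)⌋ x)` are asymptotic to `E(h|S)(x)` times the averages of
`f_1 (T^n x) ⋯ f_m (T^{mn} x)`, where `E(h|S)` is the conditional expectation on the `S`-invariant sets. For `m = 2` the
latter converge almost everywhere, by Bourgain's theorem of 1990: so for almost every `c > 0` the averages of
`f (T^n x) g (T^{2n} x) h (T^⌊c n⌋ x)` converge almost everywhere.

Proof. `Pool.Agent.Y957.MC.bty_all`: for almost every `x` and EVERY bounded sequence of weights `B`,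
`(1/N) ∑ B(n) (h (S^⌊c p(n)⌋ x) - E(h|S)(x)) → 0` for almost every `c`; here the weights are the products of the other
factors at the same point `x`. Then Fubini's theorem.
-/

set_option autoImplicit false

namespace Pool.Agent.Results.MP_9721b5_an.GenericThirdTime

open MeasureTheory Filter Finset Topology
open scoped ENNReal

universe u

/-- a power with positive real exponent, or a real polynomial of positive degree with positive leading coefficient -/
def IsTimes (p : ℕ → ℝ) : Prop :=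
  (∃ θ : ℝ, 0 < θ ∧ ∀ n : ℕ, p n = (n : ℝ) ^ θ) ∨
  (∃ P : Polynomial ℝ, 0 < P.natDegree ∧ 0 < P.leadingCoeff ∧ ∀ n : ℕ, p n = P.eval (n : ℝ))

/-- the averages of `f_1 (T^n x) ⋯ f_m (T^{mn} x)` -/
noncomputable def avg {X : Type u} {m : ℕ} (T : X → X) (f : Fin m → X → ℂ) (x : X) (N : ℕ) : ℂ :=
  (1 / (N : ℂ)) * ∑ n ∈ Icc 1 N, ∏ j : Fin m, f j (T^[((j : ℕ) + 1) * n] x)

/-- the averages of `f_1 (T^n x) ⋯ f_m (T^{mn} x) h (S^⌊c p(n)⌋ x)` -/
noncomputable def avg' {X : Type u} {m : ℕ} (T : X → X) (f : Fin m → X → ℂ) (S : X → X) (h : X → ℂ) (p : ℕ → ℝ)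
    (c : ℝ) (x : X) (N : ℕ) : ℂ :=
  (1 / (N : ℂ)) * ∑ n ∈ Icc 1 N, (∏ j : Fin m, f j (T^[((j : ℕ) + 1) * n] x)) * h (S^[⌊c * p n⌋₊] x)

theorem result (X : Type u) [MeasurableSpace X] (μ : Measure X) [IsProbabilityMeasure μ] (T S : X → X)
    (hT : MeasurePreserving T μ μ) (hS : MeasurePreserving S μ μ) (m : ℕ) (f : Fin m → X → ℂ)
    (hf : ∀ j, MemLp (f j) ∞ μ) (h : X → ℂ) (hh : MemLp h ∞ μ) (p : ℕ → ℝ) (hp : IsTimes p) :
    (∀ᵐ c : ℝ, 0 < c → ∀ᵐ x ∂μ,
      Tendsto (fun N => avg' T f S h p c x N - (μ[h | MeasurableSpace.invariants S]) x * avg T f x N)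
        atTop (𝓝 0)) ∧
    ((∀ᵐ x ∂μ, ∃ L : ℂ, Tendsto (avg T f x) atTop (𝓝 L)) →
      ∀ᵐ c : ℝ, 0 < c → ∀ᵐ x ∂μ, ∃ L : ℂ, Tendsto (avg' T f S h p c x) atTop (𝓝 L)) := by
  have hp' : Pool.Agent.Y957.MC.Good p := by
    rcases hp with ⟨θ, hθ, h⟩ | ⟨P, h1, h2, h⟩
    · have e : p = fun n : ℕ => (n : ℝ) ^ θ := funext h
      rw [e]
      exact Pool.Agent.Y957.MC.good_pow hθ
    · have e : p = fun n : ℕ => P.eval (n : ℝ) := funext h
      rw [e]
      exact Pool.Agent.Y957.MC.good_poly h1 h2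
  have h1 := Pool.Agent.Q183.CF.third hT hS hp' hf hh
  refine ⟨h1, fun h2 => ?_⟩
  filter_upwards [h1] with c hc hc0
  filter_upwards [hc hc0, h2] with x hx1 hx2
  obtain ⟨L, hL⟩ := hx2
  refine ⟨(μ[h | MeasurableSpace.invariants S]) x * L, ?_⟩
  have h3 := hx1.add (hL.const_mul ((μ[h | MeasurableSpace.invariants S]) x))
  rw [zero_add] at h3
  refine h3.congr fun N => ?_
  simp only [avg, avg']
  ring

end Pool.Agent.Results.MP_9721b5_an.GenericThirdTime
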