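import Pool.Agent.Q183.CF.Samp3

/-!
# Cubic averages at the times `⌊a n^θ⌋`, for all integers or primes `n`

Let `T` be an arbitrary measure preserving map of a probability space, `f_j` in `L^∞`, `j < m` (`m = 3` is the
problem), and `θ > 0`. For almost every `a > 0` and almost every `x`:

(1) the averages over `n ≤ N` of `∏_j f_j (T^{(j+1) n} x)` converge to `L` if and only if the averages over `n ≤ N`
of `∏_j f_j (T^{(j+1) k_n} x)`, `k_n = ⌊a n^θ⌋`, converge to `L`;

(2) the same with the averages over the primes `p ≤ N` of `∏_j f_j (T^{(j+1) k_p} x)`;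

(3) `∑_{n ≤ N} μ(n) ∏_j f_j (T^{(j+1) k_n} x) = o (N / (log N)^K)` for all `K`, with the Möbius function.

So Q1 has a positive answer for `T` and `f, g, h` if and only if the averages of
`f (T^{k_n} x) g (T^{2 k_n} x) h (T^{3 k_n} x)` converge almost everywhere for almost every `a`, for any fixed `θ > 0`,
along all integers or along the primes.

Proof. For one bounded sequence `b(n) = ∏_j f_j (T^{(j+1) n} x)`: the averages along `⌊a n^θ⌋` and the continuous
averages of the step function along `a v^θ` have the same limits for almost every `a` (`Pool.Agent.Y957.MC`: Parseval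
in the variable `log a` and van der Corput's estimates); the continuous averages along `v^θ` and the ordinary averages
are equivalent, in both directions (`Pool.Agent.Q183.CF.Samp`); for the primes and the Möbius function the bounds of
Vinogradov and Korobov for `∑ Λ(n) n^{it}` are used (`Pool.Agent.Y957.VK`). Then Fubini's theorem.
-/

set_option autoImplicit false

namespace Pool.Agent.Results.MP_9721b5_an.SampledTimes

open MeasureTheory Filter Finset Topology
open scoped ENNReal

universe u

/-- the term `f_1 (T^n x) f_2 (T^{2n} x) ... f_m (T^{mn} x)` -/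
def term {X : Type u} {m : ℕ} (T : X → X) (f : Fin m → X → ℂ) (x : X) (n : ℕ) : ℂ :=
  ∏ j : Fin m, f j (T^[((j : ℕ) + 1) * n] x)

/-- averages over the integers `1 ≤ n ≤ N` -/
noncomputable def avg (b : ℕ → ℂ) (N : ℕ) : ℂ := (1 / (N : ℂ)) * ∑ n ∈ Icc 1 N, b n

/-- averages over the primes `p ≤ N` -/
noncomputable def pavg (b : ℕ → ℂ) (N : ℕ) : ℂ :=
  (1 / (Nat.primeCounting N : ℂ)) * ∑ p ∈ (Icc 1 N).filter Nat.Prime, b p

theorem result (X : Type u) [MeasurableSpace X] (μ : Measure X) [IsProbabilityMeasure μ] (T : X → X)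
    (hT : MeasurePreserving T μ μ) (m : ℕ) (f : Fin m → X → ℂ) (hf : ∀ j, MemLp (f j) ∞ μ)
    (θ : ℝ) (hθ : 0 < θ) :
    ∀ᵐ a : ℝ, 0 < a → ∀ᵐ x ∂μ,
      (∀ L : ℂ, Tendsto (avg fun n => term T f x n) atTop (𝓝 L) ↔
        Tendsto (avg fun n => term T f x ⌊a * (n : ℝ) ^ θ⌋₊) atTop (𝓝 L)) ∧
      (∀ L : ℂ, Tendsto (avg fun n => term T f x n) atTop (𝓝 L) ↔
        Tendsto (pavg fun p => term T f x ⌊a * (p : ℝ) ^ θ⌋₊) atTop (𝓝 L)) ∧
      (∀ K : ℕ, Tendsto (fun N : ℕ => (Real.log N) ^ K / N *
        ‖∑ n ∈ Icc 1 N, ((ArithmeticFunction.moebius n : ℤ) : ℂ) * term T f x ⌊a * (n : ℝ) ^ θ⌋₊‖) atTop (𝓝 0)) := by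
  filter_upwards [Pool.Agent.Q183.CF.samp_map hT hf hθ] with a ha ha0
  filter_upwards [ha ha0] with x hx
  obtain ⟨h1, h2, h3⟩ := hx
  refine ⟨h1, fun L => (h1 L).trans ⟨fun h => ?_, fun h => ?_⟩, h3⟩
  · have h4 := h2.add h
    rw [zero_add] at h4
    refine h4.congr fun N => ?_
    simp only [pavg, term]
    ring
  · have h4 := h.sub h2
    rw [sub_zero] at h4
    refine h4.congr fun N => ?_
    simp only [pavg, term]
    ring

end Pool.Agent.Results.MP_9721b5_an.SampledTimes
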