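import Pool.Agent.Q183.CF.Susp
import Pool.Agent.W761.Tail.Main

/-!
# Cubic averages of the time maps of suspension flows

For an invertible measure preserving map `T` of a probability space `(X, μ)` and a real number `a` let `T_a` be the
map `(s, x) ↦ (s + a, T^⌊{s} + a⌋ x)` of the product of the circle `ℝ / ℤ` (with Lebesgue measure) and `X`: the time
`a` map of the suspension flow of `T` with constant roof function, a skew product over the rotation by `a`.

(1) Let the σ-algebra of `X` be countably generated and `m ≥ 1`. The following are equivalent: the averages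
`(1/N) ∑_{n ≤ N} f_1 (T^n x) ⋯ f_m (T^{mn} x)` converge almost everywhere for all `f_j` in `L^∞` (for `m = 3`: Q1 has
a positive answer for `T`); the same holds for `T_a`, for almost every `a > 0`; the same holds for `T_a` for one
`a > 0`. So a counterexample `T` gives counterexamples `T_a` for every `a > 0`, and conversely.

(2) If `T` is a Gaussian automorphism (of any spectral type), then for almost every `a > 0` the averages of `T_a`
converge almost everywhere, for all `m` and all `f_j` in `L^∞`.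

Proof. The zero-one law for flows (`Pool.Agent.Q183.CF.Final`), applied to the suspension flow; its time one map is
`id × T`. In the other direction the functions `f_1 (x) 1_{[ε, 2ε)}(s)`, `f_j (x)` for `j ≥ 2` and a starting point with
`0 ≤ s < ε` give back the averages of `T` from the continuous averages of the flow. (2) uses the convergence for
Gaussian automorphisms (`Pool.Agent.W761.Tail`).
-/

set_option autoImplicit false

namespace Pool.Agent.Results.MP_9721b5_an.SuspensionFlows

open MeasureTheory Filter Finset Topology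
open scoped ENNReal

universe u

/-- convergence almost everywhere of the averages of `f_1 (T^n x) f_2 (T^{2n} x) ... f_m (T^{mn} x)`, `1 ≤ n ≤ N`,
for all `f_j` in `L^∞` -/
def Conv {X : Type u} [MeasurableSpace X] (m : ℕ) (μ : Measure X) (T : X → X) : Prop :=
  ∀ f : Fin m → X → ℂ, (∀ j, MemLp (f j) ∞ μ) → ∀ᵐ x ∂μ, ∃ L : ℂ,
    Tendsto (fun N : ℕ => (1 / (N : ℂ)) * ∑ n ∈ Icc 1 N, ∏ j : Fin m, f j (T^[((j : ℕ) + 1) * n] x)) atTop (𝓝 L)

/-- the time `a` map of the suspension flow of `T`; `AddCircle.equivIco 1 0 s` is the representative of `s` in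
`[0, 1)` -/
noncomputable def sus {X : Type u} (T : Equiv.Perm X) (a : ℝ) (p : AddCircle (1 : ℝ) × X) : AddCircle (1 : ℝ) × X :=
  (p.1 + (a : AddCircle (1 : ℝ)), (T ^ ⌊(AddCircle.equivIco 1 0 p.1 : ℝ) + a⌋ : Equiv.Perm X) p.2)

theorem conv_iff {X : Type u} [MeasurableSpace X] {μ : Measure X} [IsProbabilityMeasure μ] {T : X → X}
    (hT : MeasurePreserving T μ μ) (m : ℕ) : Conv m μ T ↔ Pool.Agent.Q183.CF.CvgAll m μ T := by
  have e : ∀ (f : Fin m → X → ℂ) (x : X),
      Pool.Agent.W761.Tail.A (fun n => Pool.Agent.W761.Tail.term T f n x) = fun N : ℕ =>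
        (1 / (N : ℂ)) * ∑ n ∈ Icc 1 N, ∏ j : Fin m, f j (T^[((j : ℕ) + 1) * n] x) := fun f x =>
    funext fun N => Pool.Agent.Q183.CF.term_A T f x N
  constructor
  · intro h f hf
    have h1 := h f fun j => (hf j).memLp
    filter_upwards [h1] with x hx
    obtain ⟨L, hL⟩ := hx
    exact ⟨L, by rw [e]; exact hL⟩
  · intro h f hf
    choose g hg hfg using fun j => Pool.Agent.Q183.CF.bme_of_memLp (hf j)
    have h1 := Pool.Agent.W761.Tail.Cvg_congr hT (fun j => (hfg j).symm) (h g hg)
    filter_upwards [h1] with x hx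
    obtain ⟨L, hL⟩ := hx
    exact ⟨L, by rw [e] at hL; exact hL⟩

theorem key {X : Type u} [MeasurableSpace X] [MeasurableSpace.CountablyGenerated X] {μ : Measure X}
    [IsProbabilityMeasure μ] {T : Equiv.Perm X} (hT : MeasurePreserving T μ μ) (hTm : Measurable T.symm) (m : ℕ)
    (h : Conv m μ T) :
    ∀ᵐ a : ℝ, 0 < a → Conv m ((volume : Measure (AddCircle (1 : ℝ))).prod μ) (sus T a) := by
  have hτ := Pool.Agent.Q183.CF.sus_flow hT hTm
  have h1 := Pool.Agent.Q183.CF.cvg_one hT ((conv_iff hT m).1 h)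
  have h2 := Pool.Agent.Q183.CF.ccvgAll_of_one hτ one_pos h1
  filter_upwards [Pool.Agent.Q183.CF.cvgAll_of_ccvgAll hτ h2] with a ha ha0
  exact (conv_iff (hτ.mp a) m).2 (ha ha0)

theorem result :
    (∀ (X : Type u) [MeasurableSpace X] [MeasurableSpace.CountablyGenerated X] (μ : Measure X)
      [IsProbabilityMeasure μ] (T : Equiv.Perm X), MeasurePreserving T μ μ → Measurable T.symm → ∀ m : ℕ, 1 ≤ m →
      (Conv m μ T ↔ ∀ᵐ a : ℝ, 0 < a → Conv m ((volume : Measure (AddCircle (1 : ℝ))).prod μ) (sus T a)) ∧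
      (Conv m μ T ↔ ∃ a : ℝ, 0 < a ∧ Conv m ((volume : Measure (AddCircle (1 : ℝ))).prod μ) (sus T a))) ∧
    (∀ (X : Type) [MeasurableSpace X] [MeasurableSpace.CountablyGenerated X] (μ : Measure X)
      [IsProbabilityMeasure μ] (T : Equiv.Perm X), Pool.Agent.W761.Tail.IsGaussian μ T →
      ∀ᵐ a : ℝ, 0 < a → ∀ m : ℕ, Conv m ((volume : Measure (AddCircle (1 : ℝ))).prod μ) (sus T a)) := by
  refine ⟨?_, ?_⟩
  · intro X _ _ μ _ T hT hTm m hm
    have hτ := Pool.Agent.Q183.CF.sus_flow hT hTm
    have h3 : (∃ a : ℝ, 0 < a ∧ Conv m ((volume : Measure (AddCircle (1 : ℝ))).prod μ) (sus T a)) →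
        Conv m μ T := by
      rintro ⟨a, ha0, ha⟩
      have h4 := Pool.Agent.Q183.CF.ccvgAll_of_one hτ ha0 ((conv_iff (hτ.mp a) m).1 ha)
      exact (conv_iff hT m).2 (Pool.Agent.Q183.CF.cvg_of_sus hT hTm hm h4)
    refine ⟨⟨key hT hTm m, fun h => ?_⟩, ⟨fun h => ?_, h3⟩⟩
    · obtain ⟨a, ha0, ha⟩ := Pool.Agent.Q183.CF.exists_pos h
      exact h3 ⟨a, ha0, ha ha0⟩
    · obtain ⟨a, ha0, ha⟩ := Pool.Agent.Q183.CF.exists_pos (key hT hTm m h)
      exact ⟨a, ha0, ha ha0⟩
  · intro X _ _ μ _ T hG
    have h : ∀ᵐ a : ℝ, ∀ m : ℕ, 0 < a →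
        Conv m ((volume : Measure (AddCircle (1 : ℝ))).prod μ) (sus T a) := by
      rw [ae_all_iff]
      intro m
      exact key hG.mp hG.meas_symm m ((conv_iff hG.mp m).2 fun f hf => hG.conv hf)
    filter_upwards [h] with a ha ha0 m
    exact ha m ha0

end Pool.Agent.Results.MP_9721b5_an.SuspensionFlows
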