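import Pool.Agent.Q183.CF.Final

/-!
# Cubic averages for the time maps of a flow: a zero-one law

Let `τ` be a measurable measure preserving flow on a probability space `(X, μ)`. For the map `T = τ a`, `a > 0`, the
averages `(1/N) ∑_{n ≤ N} ∏_j f_j (T^{(j+1) n} x)`, `j < m`, are for `m = 3` the cubic averages of the problem.

(1) For all `f_j` in `L^∞`, for almost every `a > 0` and almost every `x`, these averages converge to a number `L` if
and only if the continuous averages `(1/V) ∫_0^V ∏_j f_j (τ_{(j+1) v} x) dv` converge to `L` as `V → ∞`. So the set of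
the points `x` at which they diverge does not depend on `a`, for almost all `a`, modulo null sets.

(2) Zero-one law, for `μ` separable (for example on all standard probability spaces): either almost every `a > 0` has
the property that the averages of the map `τ a` converge almost everywhere for all `f_j` in `L^∞` (a positive answer to
Q1 for `τ a`), or no `a > 0` has this property. The first case occurs if and only if the continuous averages converge
almost everywhere for all `f_j` in `L^∞`. In particular a positive answer for one single time `a > 0` gives a positive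
answer for almost all times, and to refute Q1 for a flow at all positive times it is enough to find a set of times of
positive measure.

Proof. (1) comes from `Pool.Agent.Y957.MC` (Parseval in the variable `log a` and van der Corput estimates). For (2),
integrate over `0 ≤ s ≤ a` the averages of the functions `f_j ∘ τ_{(j+1) s}` for the map `τ a`: they converge for
almost every `(s, x)`, so that the continuous averages converge almost everywhere. By (1) this gives convergence for
almost every time and countably many tuples of functions, dense in `L^1` and compatible with bounds; the remaining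
functions are approximated with the pointwise ergodic theorem.
-/

set_option autoImplicit false

namespace Pool.Agent.Results.MP_9721b5_an.ZeroOneLawForFlows

open MeasureTheory Filter Finset Topology
open scoped ENNReal

universe u

/-- a measurable measure preserving flow -/
structure IsFlow {X : Type u} [MeasurableSpace X] (μ : Measure X) (τ : ℝ → X → X) : Prop where
  meas : Measurable (fun p : ℝ × X => τ p.1 p.2)
  zero : ∀ x, τ 0 x = x
  add : ∀ s t x, τ (s + t) x = τ s (τ t x)
  mp : ∀ t, MeasurePreserving (τ t) μ μ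

/-- the averages of `f_1 (T^n x) f_2 (T^{2n} x) ... f_m (T^{mn} x)`, `1 ≤ n ≤ N` -/
noncomputable def avg {X : Type u} {m : ℕ} (T : X → X) (f : Fin m → X → ℂ) (x : X) (N : ℕ) : ℂ :=
  (1 / (N : ℂ)) * ∑ n ∈ Icc 1 N, ∏ j : Fin m, f j (T^[((j : ℕ) + 1) * n] x)

/-- the averages of `f_1 (τ_v x) f_2 (τ_{2v} x) ... f_m (τ_{mv} x)`, `0 ≤ v ≤ V` -/
noncomputable def cavg {X : Type u} {m : ℕ} (τ : ℝ → X → X) (f : Fin m → X → ℂ) (x : X) (V : ℝ) : ℂ :=
  (1 / (V : ℂ)) * ∫ v in (0 : ℝ)..V, ∏ j : Fin m, f j (τ (((j : ℕ) + 1 : ℝ) * v) x)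

/-- convergence almost everywhere of the averages of the map `T` for all tuples of `m` functions in `L^∞` -/
def Conv {X : Type u} [MeasurableSpace X] (m : ℕ) (μ : Measure X) (T : X → X) : Prop :=
  ∀ f : Fin m → X → ℂ, (∀ j, MemLp (f j) ∞ μ) → ∀ᵐ x ∂μ, ∃ L : ℂ, Tendsto (avg T f x) atTop (𝓝 L)

/-- convergence almost everywhere of the continuous averages for all tuples of `m` functions in `L^∞` -/
def ContConv {X : Type u} [MeasurableSpace X] (m : ℕ) (μ : Measure X) (τ : ℝ → X → X) : Prop :=
  ∀ f : Fin m → X → ℂ, (∀ j, MemLp (f j) ∞ μ) → ∀ᵐ x ∂μ, ∃ L : ℂ, Tendsto (cavg τ f x) atTop (𝓝 L)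

theorem result (X : Type u) [MeasurableSpace X] (μ : Measure X) [IsProbabilityMeasure μ] (τ : ℝ → X → X)
    (hτ : IsFlow μ τ) (m : ℕ) :
    (∀ f : Fin m → X → ℂ, (∀ j, MemLp (f j) ∞ μ) → ∀ᵐ a : ℝ, 0 < a → ∀ᵐ x ∂μ, ∀ L : ℂ,
      (Tendsto (avg (τ a) f x) atTop (𝓝 L) ↔ Tendsto (cavg τ f x) atTop (𝓝 L))) ∧
    (IsSeparable μ →
      ((∀ᵐ a : ℝ, 0 < a → Conv m μ (τ a)) ∧ ContConv m μ τ) ∨
      ((∀ a : ℝ, 0 < a → ¬ Conv m μ (τ a)) ∧ ¬ ContConv m μ τ)) := by
  have hτ' : Pool.Agent.Y957.MC.IsFlow μ τ := ⟨hτ.meas, hτ.zero, hτ.add, hτ.mp⟩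
  have e : ∀ (T : X → X) (f : Fin m → X → ℂ) (x : X),
      Pool.Agent.W761.Tail.A (fun n => Pool.Agent.W761.Tail.term T f n x) = avg T f x := fun T f x =>
    funext fun N => Pool.Agent.Q183.CF.term_A T f x N
  refine ⟨fun f hf => ?_, fun hs => ?_⟩
  · filter_upwards [Pool.Agent.Q183.CF.disc_iff hτ' hf] with a ha ha0
    filter_upwards [ha ha0] with x hx L
    rw [← e]
    exact hx L
  · have h := Pool.Agent.Q183.CF.zero_one (m := m) hτ'
    have e2 : ∀ a : ℝ, Conv m μ (τ a) ↔ ∀ f : Fin m → X → ℂ, (∀ j, MemLp (f j) ∞ μ) →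
        Pool.Agent.W761.Tail.Cvg μ (τ a) f := by
      intro a
      simp only [Conv, Pool.Agent.W761.Tail.Cvg, e]
    have e3 : ContConv m μ τ ↔ ∀ f : Fin m → X → ℂ, (∀ j, MemLp (f j) ∞ μ) →
        Pool.Agent.Q183.CF.CCvg μ τ f := Iff.rfl
    simp only [e2, e3]
    exact h

end Pool.Agent.Results.MP_9721b5_an.ZeroOneLawForFlows
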